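import Mathlib
import Pool.Agent.H964.CW.Stm

/-! # Task PRD of project CW (helper314 for helper964)

Independence of functions of disjoint sets of sites. -/

set_option autoImplicit false

open MeasureTheory ProbabilityTheory Filter Finset

namespace Pool.Agent.H314.CW

open Pool.Agent.H964.QC Pool.Agent.H964.CW

/-- extension of a partial configuration by zero -/
noncomputable def extz {V : Type} [DecidableEq V] (S : Finset (ℕ × V)) (g : S → ℝ) : ℕ → V → ℝ := fun n v =>
  if h : (n, v) ∈ S then g ⟨(n, v), h⟩ else 0

theorem extz_meas {V : Type} [DecidableEq V] (S : Finset (ℕ × V)) : Measurable (extz S) := by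
  refine measurable_pi_lambda _ (fun n => measurable_pi_lambda _ (fun v => ?_))
  by_cases h : (n, v) ∈ S
  · simp only [extz, h, dif_pos]
    exact measurable_pi_apply _
  · simp only [extz, h, dif_neg, not_false_eq_true]
    exact measurable_const

theorem extz_eq {V : Type} [DecidableEq V] {Ω : Type} (S : Finset (ℕ × V)) (η : ℕ → V → Ω → ℝ) (ω : Ω)
    {n : ℕ} {v : V} (h : (n, v) ∈ S) : extz S (fun q : S => η q.1.1 q.1.2 ω) n v = cfg η ω n v := by
  simp only [extz, h, dif_pos, cfg]

theorem t_PRD : S_PRD := by
  intro V _ _ Ω _ P _ s2 κ η hN m F S a hFm hF hd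
  have main : ∀ T : Finset (Fin m), P (⋂ i ∈ T, {ω | F i (cfg η ω) < a i}) =
      ∏ i ∈ T, P {ω | F i (cfg η ω) < a i} := by
    intro T
    induction T using Finset.induction_on with
    | empty => simp
    | insert j T hj ih =>
      rw [Finset.prod_insert hj, ← ih, Finset.set_biInter_insert]
      have hdis : Disjoint (S j) (T.biUnion S) := by
        rw [Finset.disjoint_biUnion_right]
        intro i hi
        exact hd j i (fun h => hj (h ▸ hi))
      have hI := hN.indep.indepFun_finset (S j) (T.biUnion S) hdis (fun i => hN.meas i.1 i.2)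
      have e1 : {ω | F j (cfg η ω) < a j} =
          (fun ω (q : S j) => η q.1.1 q.1.2 ω) ⁻¹' {g | F j (extz (S j) g) < a j} := by
        ext ω
        simp only [Set.mem_setOf_eq, Set.mem_preimage]
        rw [hF j _ (cfg η ω) (fun n v h => extz_eq (S j) η ω h)]
      have e2 : (⋂ i ∈ T, {ω | F i (cfg η ω) < a i}) =
          (fun ω (q : T.biUnion S) => η q.1.1 q.1.2 ω) ⁻¹' {g | ∀ i ∈ T, F i (extz (T.biUnion S) g) < a i} := by
        ext ω
        simp only [Set.mem_iInter, Set.mem_setOf_eq, Set.mem_preimage]
        refine forall_congr' (fun i => forall_congr' (fun hi => ?_))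
        rw [hF i (extz (T.biUnion S) (fun q : T.biUnion S => η q.1.1 q.1.2 ω)) (cfg η ω) (fun n v h => extz_eq (T.biUnion S) η ω
          (Finset.mem_biUnion.2 ⟨i, hi, h⟩))]
      have m1 : MeasurableSet {g : S j → ℝ | F j (extz (S j) g) < a j} :=
        measurableSet_lt ((hFm j).comp (extz_meas (S j))) measurable_const
      have m2 : MeasurableSet {g : (T.biUnion S) → ℝ | ∀ i ∈ T, F i (extz (T.biUnion S) g) < a i} := by
        have : {g : (T.biUnion S) → ℝ | ∀ i ∈ T, F i (extz (T.biUnion S) g) < a i} =
            ⋂ i ∈ T, {g | F i (extz (T.biUnion S) g) < a i} := by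
          ext g
          simp only [Set.mem_setOf_eq, Set.mem_iInter]
        rw [this]
        refine Finset.measurableSet_biInter _ (fun i _ => ?_)
        exact measurableSet_lt ((hFm i).comp (extz_meas (T.biUnion S))) measurable_const
      rw [e1, e2]
      exact hI.measure_inter_preimage_eq_mul _ _ m1 m2
  have h2 : {ω | ∀ i, F i (cfg η ω) < a i} = ⋂ i ∈ (Finset.univ : Finset (Fin m)),
      {ω | F i (cfg η ω) < a i} := by
    ext ω
    simp only [Set.mem_setOf_eq, Finset.mem_univ, Set.iInter_true, Set.mem_iInter]
  simp only [Measure.real]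
  rw [h2, main, ENNReal.toReal_prod]

end Pool.Agent.H314.CW
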